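import Mathlib

/-!
Statements (as propositions) of the auxiliary facts for the theorem on geometric graphs with at
least half of all pairs (`n ≤ 4 k + 2`).
-/
namespace Pool.Agent.Helper46.Dense

open Finset

/-- Kakutani's fixed point theorem in `ι → ℝ`. -/
def KakutaniStmt.{u} : Prop :=
  ∀ (ι : Type u) [Fintype ι] (K : Set (ι → ℝ)) (R : Set ((ι → ℝ) × (ι → ℝ))),
    IsCompact K → Convex ℝ K → K.Nonempty → IsClosed R →
    (∀ x ∈ K, ∃ y ∈ K, (x, y) ∈ R) →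
    (∀ x ∈ K, Convex ℝ {y | y ∈ K ∧ (x, y) ∈ R}) →
    ∃ x ∈ K, (x, x) ∈ R

/-- the centre of the `c`-th interval when intervals of lengths `m 0, m 1, ...` are put one after
the other starting at `0`. -/
noncomputable def pos (m : ℕ → ℝ) (c : ℕ) : ℝ := ∑ i ∈ range c, m i + m c / 2

/-- correlation of the antiperiodic sign pattern `Y` (value `Y c` on the first half and `Y (c+1)` on
the second half of the `c`-th interval) with the pattern that changes from `+` to `-` at `pos g`. -/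
noncomputable def corr (E : ℕ) (m Y : ℕ → ℝ) (g : ℕ) : ℝ :=
  ∑ c ∈ range g, m c * ((Y c + Y (c + 1)) / 2) + m g * ((Y g - Y (g + 1)) / 2) -
    ∑ c ∈ Ico (g + 1) E, m c * ((Y c + Y (c + 1)) / 2)

/-- Location lemma. -/
def LocStmt : Prop :=
  ∀ (E : ℕ) (m Y : ℕ → ℝ), 0 < E → (∀ c, 0 ≤ m c) → ∑ c ∈ range E, m c = 1 →
    (∀ i ≤ E, Y i = 1 ∨ Y i = -1) → Y E = - Y 0 →
    ∃ μ : ℕ → ℝ, (∀ c, 0 ≤ μ c) ∧ (∀ c < E, Y c = Y (c + 1) → μ c = 0) ∧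
      ∑ c ∈ range E, μ c = 1 ∧
      ∀ g < E, ∀ σ : ℝ, (σ = 1 ∨ σ = -1) →
        σ * corr E m Y g ≤
          ∑ c ∈ range E, μ c * max 0 (σ * ((Y c - Y (c + 1)) / 2) * (1 - 2 * |pos m c - pos m g|))

/-- Positive definiteness of the antiperiodic triangle kernel. -/
def PDStmt : Prop :=
  ∀ (E : ℕ) (p a : ℕ → ℝ) (j : ℝ), 0 ≤ j → j ≤ 1 / 2 → (∀ c < E, 0 ≤ p c ∧ p c ≤ 1) →
    0 ≤ ∑ c ∈ range E, ∑ d ∈ range E,
      a c * a d * (max 0 (j - |p c - p d|) - max 0 (j - 1 + |p c - p d|))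

/-- Midpoint rule. -/
def MidStmt : Prop :=
  ∀ (E : ℕ) (m : ℕ → ℝ) (j : ℝ), (∀ c, 0 ≤ m c) → ∑ c ∈ range E, m c = 1 → 0 ≤ j → j ≤ 1 / 2 →
    ∀ c < E, ∑ d ∈ range E,
      m d * (max 0 (j - |pos m c - pos m d|) + max 0 (j - 1 + |pos m c - pos m d|)) ≤
        j ^ 2 + (m c) ^ 2 / 4

end Pool.Agent.Helper46.Dense
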