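import Pool.Agent.Helper46.Dense.Main

/-!
Counting edges: the conclusion for an abstract half turn.
-/
namespace Pool.Agent.Helper46.Dense

open Finset Pool.Agent.Helper46.Peel

universe u

variable {V : Type u} [Fintype V] [DecidableEq V]

/-- twice the cut as a sum over ordered adjacent pairs -/
lemma cut_sum (G : SimpleGraph V) (S : Finset V) (y : V → ℝ)
    (hy : ∀ v, y v = if v ∈ S then -1 else 1) :
    (open Classical in ∑ q ∈ (univ : Finset (V × V)).filter (fun q => G.Adj q.1 q.2),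
      (1 - y q.1 * y q.2) / 2) = 2 * (cut G S : ℝ) := by
  classical
  have h1 : ∀ q : V × V, (1 - y q.1 * y q.2) / 2 =
      (if q.1 ∈ S ∧ q.2 ∉ S then (1 : ℝ) else 0) + (if q.2 ∈ S ∧ q.1 ∉ S then 1 else 0) := by
    intro q
    rw [hy, hy]
    by_cases ha : q.1 ∈ S <;> by_cases hb : q.2 ∈ S <;> simp [ha, hb]
  have h2 : ∑ q ∈ (univ : Finset (V × V)).filter (fun q => G.Adj q.1 q.2),
      (if q.1 ∈ S ∧ q.2 ∉ S then (1 : ℝ) else 0) = cut G S := by
    rw [← sum_filter, filter_filter, sum_const, nsmul_eq_mul, mul_one]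
    unfold cut
    congr 2
    ext q
    simp only [mem_filter, mem_univ, true_and, mem_product, mem_compl]
    tauto
  have h3 : ∑ q ∈ (univ : Finset (V × V)).filter (fun q => G.Adj q.1 q.2),
      (if q.2 ∈ S ∧ q.1 ∉ S then (1 : ℝ) else 0) = cut G S := by
    rw [← h2]
    apply sum_equiv (Equiv.prodComm V V)
    · intro q
      simp only [mem_filter, mem_univ, true_and, Equiv.prodComm_apply, Prod.fst_swap,
        Prod.snd_swap]
      exact ⟨fun h => h.symm, fun h => h.symm⟩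
    · intro q _
      simp only [Equiv.prodComm_apply, Prod.fst_swap, Prod.snd_swap]
      congr
  rw [sum_congr rfl (fun q _ => h1 q), sum_add_distrib, h2, h3]
  ring

set_option maxHeartbeats 4000000 in
theorem core_dense (hK : KakutaniStmt.{u}) (hL : LocStmt) (hP : PDStmt) (hMid : MidStmt)
    (G : SimpleGraph V) {P : Finset V → Prop} {E : ℕ} {Y : ℕ → V → ℝ} (hs : Sweep P E Y)
    {c n k : ℕ} (hc : ∀ S, P S → cut G S ≤ c) (hn : Fintype.card V = n)
    (he : 2 * (n * k) + 2 ≤ ordE G) (hnk : n ≤ 4 * k + 2) : k ^ 2 + k + 1 ≤ c := by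
  classical
  have hn2 : ordE G ≤ n * (n - 1) := ordE_le hn
  have hn1 : 1 ≤ n := by
    rcases Nat.eq_zero_or_pos n with h | h
    · rw [h] at hn2 he; omega
    · exact h
  have hV : 0 < Fintype.card V := by omega
  obtain ⟨M, hM, hM1, hM0, hloc⟩ := exists_charges hK hL hs hV
  have hnR : (0 : ℝ) < n := by exact_mod_cast hn1
  have hcard : ((Fintype.card V : ℕ) : ℝ) = n := by rw [hn]
  -- the average charge
  have hm : ∀ c, 0 ≤ avg M c := fun c => by
    unfold avg
    exact div_nonneg (sum_nonneg fun v _ => hM v c) (by positivity)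
  have hm1 : ∑ c ∈ range E, avg M c = 1 := by
    unfold avg
    rw [← sum_div, sum_comm]
    simp only [hM1, sum_const, card_univ, nsmul_eq_mul, mul_one]
    rw [hcard]
    exact div_self hnR.ne'
  set m := avg M with hmd
  -- the three classes of pairs
  set Adj := (univ : Finset (V × V)).filter (fun q => G.Adj q.1 q.2) with hAdj
  set N := (univ : Finset (V × V)).filter (fun q => q.1 ≠ q.2 ∧ ¬ G.Adj q.1 q.2) with hN
  set Dg := (univ : Finset (V × V)).filter (fun q => q.1 = q.2) with hDg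
  have hAdjc : Adj.card = ordE G := by
    rw [hAdj]; unfold ordE; rfl
  have hDgc : Dg.card = n := by
    rw [hDg, ← hn, ← card_univ]
    apply (card_bij (fun v _ => (v, v)) _ _ _).symm
    · intro v _; simp
    · intro a _ b _ h; exact (Prod.mk.inj h).1
    · rintro ⟨a, b⟩ h
      simp only [mem_filter, mem_univ, true_and] at h
      exact ⟨a, mem_univ _, by rw [h]⟩
  have hsplit : ∀ f : V × V → ℝ, ∑ q, f q = ∑ q ∈ Adj, f q + ∑ q ∈ N, f q + ∑ q ∈ Dg, f q := by
    intro f
    rw [hAdj, hN, hDg, sum_filter, sum_filter, sum_filter, ← sum_add_distrib, ← sum_add_distrib]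
    apply sum_congr rfl
    intro q _
    by_cases h1 : q.1 = q.2
    · have : ¬ G.Adj q.1 q.2 := fun h => h.ne h1
      simp [h1]
    · by_cases h2 : G.Adj q.1 q.2 <;> simp [h1, h2]
  have hcardN : (N.card : ℝ) = (n : ℝ) ^ 2 - n - ordE G := by
    have := hsplit fun _ => (1 : ℝ)
    simp only [sum_const, nsmul_eq_mul, mul_one, card_univ, Fintype.card_prod, hn, hAdjc,
      hDgc] at this
    push_cast at this
    linarith
  -- choice of `j`
  set j : ℝ := N.card / (n : ℝ) ^ 2 with hjd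
  have hj0 : 0 ≤ j := by positivity
  have heR : 2 * ((n : ℝ) * k) + 2 ≤ ordE G := by exact_mod_cast he
  have hnkR : (n : ℝ) ≤ 4 * k + 2 := by exact_mod_cast hnk
  have hNj : (N.card : ℝ) = (n : ℝ) ^ 2 * j := by
    rw [hjd]; field_simp
  have hj : j ≤ 1 / 2 := by
    rw [hjd, div_le_iff₀ (by positivity)]
    rw [hcardN]
    have hp := mul_nonneg hnR.le (sub_nonneg.2 hnkR)
    have hp2 : (n : ℝ) * (4 * k + 2 - n) = 4 * (n * k) + 2 * n - n ^ 2 := by ring
    linarith
  -- the sum over non-adjacent pairs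
  have hpair := sum_pairB hP hMid hs hV hM hM1 hM0 hm hm1 hj0 hj
  rw [hcard] at hpair
  set ns : V × V → ℝ := fun q => nonsep E m (fun i => Y i q.1) (fun i => Y i q.2) with hns
  have h1 : ∑ q ∈ N, (j - ns q) ≤ (n : ℝ) ^ 2 * j ^ 2 / 2 + 1 / 2 := by
    refine le_trans ?_ hpair
    rw [← Fintype.sum_prod_type' (f := fun x y => pairB E m M Y j x y)]
    calc ∑ q ∈ N, (j - ns q) ≤ ∑ q ∈ N, pairB E m M Y j q.1 q.2 := by
          apply sum_le_sum
          intro q hq
          rw [hN, mem_filter] at hq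
          exact pair_bound hs hm hm1 hM hM1 hM0 hloc hj hq.2.1
      _ ≤ ∑ q : V × V, pairB E m M Y j q.1 q.2 := by
          apply sum_le_sum_of_subset_of_nonneg (subset_univ _)
          intro q _ _
          exact pairB_nonneg hs.sgn hM j q.1 q.2
  have h2 : (n : ℝ) ^ 2 * j ^ 2 / 2 - 1 / 2 ≤ ∑ q ∈ N, ns q := by
    rw [sum_sub_distrib, sum_const, nsmul_eq_mul] at h1
    rw [hNj] at h1
    have : (n : ℝ) ^ 2 * j * j = (n : ℝ) ^ 2 * j ^ 2 := by ring
    linarith
  -- separation sums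
  set sp : ℕ → V × V → ℝ := fun i q => (1 - Y i q.1 * Y i q.2) / 2 with hsp
  have hall : ∀ i < E, ((n : ℝ) ^ 2 - 1) / 2 ≤ ∑ q, sp i q := by
    intro i hi
    have e : ∑ q : V × V, sp i q = ((n : ℝ) ^ 2 - (∑ v, Y i v) ^ 2) / 2 := by
      rw [hsp, ← univ_product_univ, sum_product]
      simp only [← sum_div]
      congr 1
      have : ∀ x, ∑ y, (1 - Y i x * Y i y) = (n : ℝ) - Y i x * ∑ y, Y i y := by
        intro x
        rw [sum_sub_distrib, ← mul_sum, sum_const, card_univ, nsmul_eq_mul, mul_one, hcard]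
      simp only [this]
      rw [sum_sub_distrib, ← sum_mul, sum_const, card_univ, nsmul_eq_mul, hcard]
      ring
    rw [e]
    have hb := hs.bal i hi
    have hb2 : (∑ v, Y i v) ^ 2 ≤ 1 := by
      rw [← sq_abs]
      nlinarith [abs_nonneg (∑ v, Y i v)]
    linarith
  have hE0 : ∀ q, sp E q = sp 0 q := by
    intro q
    simp only [hsp, hs.anti]
    ring
  have hall' : ∀ i ≤ E, ((n : ℝ) ^ 2 - 1) / 2 ≤ ∑ q, sp i q := by
    intro i hi
    rcases Nat.lt_or_ge i E with h | h
    · exact hall i h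
    · have : i = E := le_antisymm hi h
      rw [this]
      simp only [hE0]
      exact hall 0 hs.pos
  have hcut : ∀ i ≤ E, ∑ q ∈ Adj, sp i q ≤ 2 * c := by
    have h0 : ∀ i < E, ∑ q ∈ Adj, sp i q ≤ 2 * c := by
      intro i hi
      obtain ⟨S, hS, hSY⟩ := hs.good i hi
      have := cut_sum G S (Y i) hSY
      rw [hsp]
      refine le_trans (le_of_eq ?_) (mul_le_mul_of_nonneg_left
        (Nat.cast_le.2 (hc S hS) : (cut G S : ℝ) ≤ c) (by norm_num))
      rw [← this]
    intro i hi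
    rcases Nat.lt_or_ge i E with h | h
    · exact h0 i h
    · have : i = E := le_antisymm hi h
      rw [this]
      simp only [hE0]
      exact h0 0 hs.pos
  have hdg : ∀ i ≤ E, ∑ q ∈ Dg, sp i q = 0 := by
    intro i hi
    apply sum_eq_zero
    intro q hq
    rw [hDg, mem_filter] at hq
    simp only [hsp, hq.2]
    rcases hs.sgn i hi q.2 with h | h <;> rw [h] <;> norm_num
  have hF : ∀ i ≤ E, ((n : ℝ) ^ 2 - 1) / 2 - ∑ q ∈ N, sp i q ≤ 2 * c := by
    intro i hi
    have e1 := hall' i hi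
    rw [hsplit, hdg i hi] at e1
    have e2 := hcut i hi
    linarith
  -- averaging
  have h3 : ((n : ℝ) ^ 2 - 1) / 2 - ∑ q ∈ N, (1 - ns q) ≤ 2 * c := by
    have e1 : ∑ q ∈ N, (1 - ns q) = ∑ i ∈ range E, m i *
        ((∑ q ∈ N, sp i q + ∑ q ∈ N, sp (i + 1) q) / 2) := by
      have : ∀ q, 1 - ns q = ∑ i ∈ range E, m i * ((sp i q + sp (i + 1) q) / 2) := by
        intro q
        rw [← hm1, hns]
        unfold nonsep
        rw [← sum_sub_distrib]
        apply sum_congr rfl
        intro i _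
        simp only [hsp]
        ring
      simp only [this]
      rw [sum_comm]
      apply sum_congr rfl
      intro i _
      rw [← mul_sum, ← sum_div, sum_add_distrib]
    rw [e1]
    have e2 : ((n : ℝ) ^ 2 - 1) / 2 = ∑ i ∈ range E, m i * (((n : ℝ) ^ 2 - 1) / 2) := by
      rw [← sum_mul, hm1, one_mul]
    have e3 : (2 : ℝ) * c = ∑ i ∈ range E, m i * (2 * c) := by
      rw [← sum_mul, hm1, one_mul]
    rw [e2, e3, ← sum_sub_distrib]
    apply sum_le_sum
    intro i hi
    rw [mem_range] at hi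
    rw [← mul_sub]
    apply mul_le_mul_of_nonneg_left _ (hm i)
    have a1 := hF i hi.le
    have a2 := hF (i + 1) hi
    linarith
  have h4 : (n : ℝ) ^ 2 * (1 - j) ^ 2 / 2 - 1 ≤ 2 * c := by
    rw [sum_sub_distrib, sum_const, nsmul_eq_mul, mul_one, hNj] at h3
    have : (n : ℝ) ^ 2 * (1 - j) ^ 2 = (n : ℝ) ^ 2 - 2 * ((n : ℝ) ^ 2 * j) +
        (n : ℝ) ^ 2 * j ^ 2 := by ring
    linarith
  -- arithmetic
  have h5 : (n : ℝ) * (1 - j) = 1 + ordE G / n := by
    have : (n : ℝ) * (n * (1 - j)) = n + ordE G := by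
      have : (n : ℝ) * (n * (1 - j)) = n ^ 2 - n ^ 2 * j := by ring
      rw [this, ← hNj, hcardN]
      ring
    field_simp
    linarith
  have h6 : 2 * (k : ℝ) + 1 + 2 / n ≤ 1 + ordE G / n := by
    have : 2 * (k : ℝ) + 2 / n ≤ ordE G / n := by
      rw [le_div_iff₀ hnR]
      have : (2 * (k : ℝ) + 2 / n) * n = 2 * (n * k) + 2 := by field_simp
      rw [this]
      exact heR
    linarith
  have h7 : (2 * (k : ℝ) + 1 + 2 / n) ^ 2 / 2 - 1 ≤ 2 * c := by
    have e1 : (n : ℝ) ^ 2 * (1 - j) ^ 2 = (1 + ordE G / n) ^ 2 := by rw [← h5]; ring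
    rw [e1] at h4
    have e2 : (2 * (k : ℝ) + 1 + 2 / n) ^ 2 ≤ (1 + ordE G / n) ^ 2 :=
      pow_le_pow_left₀ (by positivity) h6 2
    linarith
  have h8 : 2 * (k : ℝ) ^ 2 + 2 * k < 2 * c := by
    have e1 : 1 ≤ (4 * (k : ℝ) + 2) / n := by
      rw [le_div_iff₀ hnR, one_mul]; exact hnkR
    have e2 : (0 : ℝ) < 2 / n := by positivity
    have e3 : (2 * (k : ℝ) + 1 + 2 / n) ^ 2 / 2 - 1 =
        2 * (k : ℝ) ^ 2 + 2 * k + 1 / 2 + (4 * k + 2) / n + (2 / n) ^ 2 / 2 - 1 := by
      field_simp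
      ring
    rw [e3] at h7
    have e4 : (0 : ℝ) < (2 / (n : ℝ)) ^ 2 := by positivity
    linarith
  have h9 : (k ^ 2 + k : ℕ) < c := by
    have : ((k ^ 2 + k : ℕ) : ℝ) < c := by push_cast; linarith
    exact_mod_cast this
  omega

end Pool.Agent.Helper46.Dense
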