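import Pool.Agent.Helper46.Dense.Sweep

/-!
Existence of the charges (fixed point).
-/
namespace Pool.Agent.Helper46.Dense

open Finset

universe u

variable {V : Type u} [Fintype V] [DecidableEq V]

/-- the average of the charges -/
noncomputable def avg (M : V → ℕ → ℝ) (c : ℕ) : ℝ := (∑ v, M v c) / Fintype.card V

/-- charges from a vector -/
noncomputable def chg (E : ℕ) (x : V × Fin E → ℝ) (v : V) (c : ℕ) : ℝ :=
  if h : c < E then x (v, ⟨c, h⟩) else 0

lemma chg_cont (E : ℕ) (v : V) (c : ℕ) : Continuous fun x : V × Fin E → ℝ => chg E x v c := by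
  unfold chg
  by_cases h : c < E
  · simp only [h, dite_true]; exact continuous_apply _
  · simp only [h, dite_false]; exact continuous_const

lemma avg_cont (E : ℕ) (c : ℕ) : Continuous fun x : V × Fin E → ℝ => avg (chg E x) c := by
  unfold avg
  exact (continuous_finset_sum _ fun v _ => chg_cont E v c).div_const _

lemma pos_cont (E : ℕ) (c : ℕ) : Continuous fun x : V × Fin E → ℝ => pos (avg (chg E x)) c := by
  unfold pos
  exact (continuous_finset_sum _ fun i _ => avg_cont E i).add ((avg_cont E c).div_const _)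

lemma corr_cont (E : ℕ) (Y : ℕ → ℝ) (g : ℕ) :
    Continuous fun x : V × Fin E → ℝ => corr E (avg (chg E x)) Y g := by
  unfold corr
  exact ((continuous_finset_sum _ fun i _ => (avg_cont E i).mul continuous_const).add
    ((avg_cont E g).mul continuous_const)).sub
    (continuous_finset_sum _ fun i _ => (avg_cont E i).mul continuous_const)

lemma chg_combo (E : ℕ) (x y : V × Fin E → ℝ) (a b : ℝ) (v : V) (c : ℕ) :
    chg E (a • x + b • y) v c = a * chg E x v c + b * chg E y v c := by
  unfold chg
  split_ifs <;> simp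

lemma sum_chg (E : ℕ) (x : V × Fin E → ℝ) (v : V) :
    ∑ c ∈ range E, chg E x v c = ∑ c : Fin E, x (v, c) := by
  rw [← Fin.sum_univ_eq_sum_range]
  apply sum_congr rfl
  intro c _
  unfold chg
  rw [dif_pos c.2]

/-- the location inequality of vertex `v` -/
def LocIneq (E : ℕ) (m : ℕ → ℝ) (Y : ℕ → ℝ) (μ : ℕ → ℝ) : Prop :=
  ∀ g < E, ∀ σ : ℝ, (σ = 1 ∨ σ = -1) →
    σ * corr E m Y g ≤
      ∑ c ∈ range E, μ c * max 0 (σ * ((Y c - Y (c + 1)) / 2) * (1 - 2 * |pos m c - pos m g|))

theorem exists_charges (hK : KakutaniStmt.{u}) (hL : LocStmt) {P : Finset V → Prop} {E : ℕ}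
    {Y : ℕ → V → ℝ} (hs : Sweep P E Y) (hV : 0 < Fintype.card V) :
    ∃ M : V → ℕ → ℝ, (∀ v c, 0 ≤ M v c) ∧ (∀ v, ∑ c ∈ range E, M v c = 1) ∧
      (∀ v, ∀ c < E, Y c v = Y (c + 1) v → M v c = 0) ∧
      (∀ v, LocIneq E (avg M) (fun i => Y i v) (M v)) := by
  have hcV : (0 : ℝ) < Fintype.card V := by exact_mod_cast hV
  set K : Set (V × Fin E → ℝ) := {x | (∀ q, 0 ≤ x q) ∧ (∀ v, ∑ c : Fin E, x (v, c) = 1) ∧
    ∀ v, ∀ c : Fin E, Y c v = Y (c + 1) v → x (v, c) = 0} with hKdef
  set R : Set ((V × Fin E → ℝ) × (V × Fin E → ℝ)) :=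
    {q | ∀ v, LocIneq E (avg (chg E q.1)) (fun i => Y i v) (chg E q.2 v)} with hRdef
  -- existence of solutions
  have hex : ∀ m : ℕ → ℝ, (∀ c, 0 ≤ m c) → ∑ c ∈ range E, m c = 1 →
      ∃ y ∈ K, ∀ v, LocIneq E m (fun i => Y i v) (chg E y v) := by
    intro m hm0 hm1
    have := fun v => hL E m (fun i => Y i v) hs.pos hm0 hm1 (fun i hi => hs.sgn i hi v) (hs.anti v)
    choose μ h1 h2 h3 h4 using this
    refine ⟨fun q => μ q.1 q.2, ⟨fun q => h1 _ _, ?_, ?_⟩, ?_⟩
    · intro v
      rw [← h3 v, ← Fin.sum_univ_eq_sum_range]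
    · intro v c hc
      exact h2 v c c.2 hc
    · intro v g hg σ hσ
      refine (h4 v g hg σ hσ).trans (le_of_eq ?_)
      apply sum_congr rfl
      intro c hc
      rw [mem_range] at hc
      unfold chg
      rw [dif_pos hc]
  have hKc : IsCompact K := by
    have hsub : K ⊆ Set.pi Set.univ (fun _ : V × Fin E => Set.Icc (0 : ℝ) 1) := by
      intro x hx q _
      refine ⟨hx.1 q, ?_⟩
      have := hx.2.1 q.1
      rw [← this]
      exact single_le_sum (f := fun c : Fin E => x (q.1, c)) (fun c _ => hx.1 _) (mem_univ q.2)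
    refine (isCompact_univ_pi fun _ => isCompact_Icc).of_isClosed_subset ?_ hsub
    rw [hKdef]
    simp only [Set.setOf_and, Set.setOf_forall]
    refine IsClosed.inter (isClosed_iInter fun q => isClosed_le continuous_const
      (continuous_apply q)) (IsClosed.inter (isClosed_iInter fun v => isClosed_eq
      (continuous_finset_sum _ fun c _ => continuous_apply _) continuous_const) ?_)
    exact isClosed_iInter fun v => isClosed_iInter fun c => isClosed_iInter fun _ =>
      isClosed_eq (continuous_apply _) continuous_const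
  have hKconv : Convex ℝ K := by
    intro x hx y hy a b ha hb hab
    refine ⟨fun q => ?_, fun v => ?_, fun v c hc => ?_⟩
    · simp only [Pi.add_apply, Pi.smul_apply, smul_eq_mul]
      exact add_nonneg (mul_nonneg ha (hx.1 q)) (mul_nonneg hb (hy.1 q))
    · simp only [Pi.add_apply, Pi.smul_apply, smul_eq_mul]
      rw [sum_add_distrib, ← mul_sum, ← mul_sum, hx.2.1 v, hy.2.1 v]
      linarith
    · simp only [Pi.add_apply, Pi.smul_apply, smul_eq_mul]
      rw [hx.2.2 v c hc, hy.2.2 v c hc]
      ring
  have hsumE : ∀ x ∈ K, (∀ c, 0 ≤ avg (chg E x) c) ∧ ∑ c ∈ range E, avg (chg E x) c = 1 := by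
    intro x hx
    constructor
    · intro c
      unfold avg chg
      apply div_nonneg _ hcV.le
      apply sum_nonneg
      intro v _
      split_ifs
      · exact hx.1 _
      · exact le_rfl
    · unfold avg
      rw [← sum_div, sum_comm]
      have : ∀ v, ∑ c ∈ range E, chg E x v c = 1 := fun v => by rw [sum_chg, hx.2.1 v]
      simp only [this, sum_const, card_univ, nsmul_eq_mul, mul_one]
      exact div_self hcV.ne'
  have hKne : K.Nonempty := by
    have hE : (0 : ℝ) < E := by exact_mod_cast hs.pos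
    obtain ⟨y, hy, -⟩ := hex (fun c => if c < E then 1 / (E : ℝ) else 0)
      (fun c => by
        show (0 : ℝ) ≤ if c < E then 1 / (E : ℝ) else 0
        split_ifs <;> positivity)
      (by
        rw [sum_congr rfl (fun c hc => if_pos (mem_range.1 hc))]
        rw [sum_const, card_range, nsmul_eq_mul]
        field_simp)
    exact ⟨y, hy⟩
  have hRc : IsClosed R := by
    rw [hRdef]
    unfold LocIneq
    simp only [Set.setOf_forall]
    refine isClosed_iInter fun v => isClosed_iInter fun g => isClosed_iInter fun _ =>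
      isClosed_iInter fun σ => isClosed_iInter fun _ => ?_
    apply isClosed_le
    · exact continuous_const.mul ((corr_cont E _ g).comp continuous_fst)
    · refine continuous_finset_sum _ fun c _ => ?_
      apply Continuous.mul
      · exact (chg_cont E v c).comp continuous_snd
      · apply continuous_const.max
        apply continuous_const.mul
        apply continuous_const.sub
        apply continuous_const.mul
        apply Continuous.abs
        exact ((pos_cont E c).comp continuous_fst).sub ((pos_cont E g).comp continuous_fst)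
  have hRex : ∀ x ∈ K, ∃ y ∈ K, (x, y) ∈ R := by
    intro x hx
    obtain ⟨h1, h2⟩ := hsumE x hx
    exact hex _ h1 h2
  have hRconv : ∀ x ∈ K, Convex ℝ {y | y ∈ K ∧ (x, y) ∈ R} := by
    intro x hx y hy z hz a b ha hb hab
    refine ⟨hKconv hy.1 hz.1 ha hb hab, ?_⟩
    intro v g hg σ hσ
    have h1 := hy.2 v g hg σ hσ
    have h2 := hz.2 v g hg σ hσ
    simp only [chg_combo] at h1 h2 ⊢
    calc σ * corr E (avg (chg E x)) (fun i => Y i v) g
        = a * (σ * corr E (avg (chg E x)) (fun i => Y i v) g) +
          b * (σ * corr E (avg (chg E x)) (fun i => Y i v) g) := by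
          rw [← add_mul, hab, one_mul]
      _ ≤ a * _ + b * _ := add_le_add (mul_le_mul_of_nonneg_left h1 ha)
          (mul_le_mul_of_nonneg_left h2 hb)
      _ = _ := by
          rw [mul_sum, mul_sum, ← sum_add_distrib]
          apply sum_congr rfl
          intro c _
          ring
  obtain ⟨x, hx, hxR⟩ := hK (V × Fin E) K R hKc hKconv hKne hRc hRex hRconv
  refine ⟨chg E x, ?_, ?_, ?_, hxR⟩
  · intro v c
    unfold chg
    split_ifs
    · exact hx.1 _
    · exact le_rfl
  · intro v
    rw [sum_chg, hx.2.1 v]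
  · intro v c hc h
    unfold chg
    rw [dif_pos hc]
    exact hx.2.2 v ⟨c, hc⟩ h

end Pool.Agent.Helper46.Dense
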