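import Pool.Agent.Helper46.Dense.Pair

/-!
The combinatorial core: all cuts of a half turn at most `c` forces `k ^ 2 + k + 1 ≤ c`.
-/
namespace Pool.Agent.Helper46.Dense

open Finset Pool.Agent.Helper46.Peel

universe u

variable {V : Type u} [Fintype V] [DecidableEq V]

/-- the flip sign -/
noncomputable def flp (Y : ℕ → V → ℝ) (v : V) (c : ℕ) : ℝ := (Y c v - Y (c + 1) v) / 2

lemma pos_mem {E : ℕ} {m : ℕ → ℝ} (hm : ∀ c, 0 ≤ m c) (h1 : ∑ c ∈ range E, m c = 1) {c : ℕ}
    (hc : c < E) : 0 ≤ pos m c ∧ pos m c ≤ 1 := by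
  have h := sum_split hc m
  have h2 : 0 ≤ ∑ i ∈ range c, m i := sum_nonneg fun i _ => hm i
  have h3 : 0 ≤ ∑ i ∈ Ico (c + 1) E, m i := sum_nonneg fun i _ => hm i
  have h4 := hm c
  unfold pos
  constructor <;> linarith

/-- the bound for one pair of vertices -/
noncomputable def pairB (E : ℕ) (m : ℕ → ℝ) (M : V → ℕ → ℝ) (Y : ℕ → V → ℝ) (j : ℝ) (x y : V) : ℝ :=
  ∑ c ∈ range E, ∑ d ∈ range E, M x c * M y d *
    ((1 + flp Y x c * flp Y y d) / 2 * max 0 (j - 1 + |pos m c - pos m d|) +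
      (1 - flp Y x c * flp Y y d) / 2 * max 0 (j - |pos m c - pos m d|))

omit [Fintype V] [DecidableEq V] in
lemma pairB_comm (E : ℕ) (m : ℕ → ℝ) (M : V → ℕ → ℝ) (Y : ℕ → V → ℝ) (j : ℝ) (x y : V) :
    pairB E m M Y j x y = pairB E m M Y j y x := by
  unfold pairB
  rw [sum_comm]
  apply sum_congr rfl
  intro c _
  apply sum_congr rfl
  intro d _
  rw [abs_sub_comm (pos m d) (pos m c), mul_comm (M x d), mul_comm (flp Y x d)]

section

variable {P : Finset V → Prop} {E : ℕ} {Y : ℕ → V → ℝ} {M : V → ℕ → ℝ} {m : ℕ → ℝ}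

omit [Fintype V] [DecidableEq V] in
lemma flp_cases (hsgn : ∀ i ≤ E, ∀ v, Y i v = 1 ∨ Y i v = -1) {v : V} {c : ℕ} (hc : c < E)
    (h : Y c v ≠ Y (c + 1) v) : flp Y v c = 1 ∨ flp Y v c = -1 := by
  unfold flp
  rcases hsgn c hc.le v with h1 | h1 <;> rcases hsgn (c + 1) hc v with h2 | h2 <;>
    rw [h1, h2] at h ⊢
  · exact absurd rfl h
  · left; norm_num
  · right; norm_num
  · exact absurd rfl h

lemma flp_abs_le (hsgn : ∀ i ≤ E, ∀ v, Y i v = 1 ∨ Y i v = -1) {v : V} {c : ℕ} (hc : c < E) :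
    -1 ≤ flp Y v c ∧ flp Y v c ≤ 1 := by
  unfold flp
  rcases hsgn c hc.le v with h1 | h1 <;> rcases hsgn (c + 1) hc v with h2 | h2 <;>
    rw [h1, h2] <;> norm_num

lemma pairB_nonneg (hsgn : ∀ i ≤ E, ∀ v, Y i v = 1 ∨ Y i v = -1) (hM : ∀ v c, 0 ≤ M v c)
    (j : ℝ) (x y : V) : 0 ≤ pairB E m M Y j x y := by
  unfold pairB
  apply sum_nonneg
  intro c hc
  apply sum_nonneg
  intro d hd
  rw [mem_range] at hc hd
  apply mul_nonneg (mul_nonneg (hM _ _) (hM _ _))
  have h1 := flp_abs_le hsgn (v := x) hc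
  have h2 := flp_abs_le hsgn (v := y) hd
  have h3 : -1 ≤ flp Y x c * flp Y y d := by nlinarith
  have h4 : flp Y x c * flp Y y d ≤ 1 := by nlinarith
  apply add_nonneg
  · exact mul_nonneg (by linarith) (le_max_left _ _)
  · exact mul_nonneg (by linarith) (le_max_left _ _)

/-- case A of the pair bound -/
lemma pair_aux (hsgn : ∀ i ≤ E, ∀ v, Y i v = 1 ∨ Y i v = -1)
    (hm : ∀ c, 0 ≤ m c) (hm1 : ∑ c ∈ range E, m c = 1)
    (hM : ∀ v c, 0 ≤ M v c) (hM1 : ∀ v, ∑ c ∈ range E, M v c = 1)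
    (hM0 : ∀ v, ∀ c < E, Y c v = Y (c + 1) v → M v c = 0)
    (hloc : ∀ v, LocIneq E m (fun i => Y i v) (M v)) {j : ℝ} (hj : j ≤ 1 / 2) {x y : V} {g : ℕ}
    (hg : g < E) (h1 : ∀ i ≤ g, Y i y ≤ Y i x) (h2 : ∀ i ≤ E, g < i → Y i x ≤ Y i y) :
    j - nonsep E m (fun i => Y i x) (fun i => Y i y) ≤ pairB E m M Y j x y := by
  have hb := nonsep_eq (X := fun i => Y i x) (Y := fun i => Y i y) hg hm1
    (fun i hi => hsgn i hi x) (fun i hi => hsgn i hi y) h1 h2
  rw [hb]
  have lx := hloc x g hg 1 (Or.inl rfl)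
  have ly := hloc y g hg (-1) (Or.inr rfl)
  have e1 : j - (1 - (corr E m (fun i => Y i x) g - corr E m (fun i => Y i y) g) / 2) ≤
      j - 1 + (∑ c ∈ range E, M x c *
        max 0 (1 * ((Y c x - Y (c + 1) x) / 2) * (1 - 2 * |pos m c - pos m g|))) / 2 +
      (∑ c ∈ range E, M y c *
        max 0 (-1 * ((Y c y - Y (c + 1) y) / 2) * (1 - 2 * |pos m c - pos m g|))) / 2 := by
    linarith
  refine e1.trans ?_
  have e2 : j - 1 + (∑ c ∈ range E, M x c *
        max 0 (1 * ((Y c x - Y (c + 1) x) / 2) * (1 - 2 * |pos m c - pos m g|))) / 2 +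
      (∑ c ∈ range E, M y c *
        max 0 (-1 * ((Y c y - Y (c + 1) y) / 2) * (1 - 2 * |pos m c - pos m g|))) / 2 =
      ∑ c ∈ range E, ∑ d ∈ range E, M x c * M y d *
        (j - (1 - max 0 (1 * flp Y x c * (1 - 2 * |pos m c - pos m g|)) / 2 -
          max 0 (-1 * flp Y y d * (1 - 2 * |pos m d - pos m g|)) / 2)) := by
    have s1 : ∑ c ∈ range E, ∑ d ∈ range E, M x c * M y d * (j - 1) = j - 1 := by
      simp only [← sum_mul, ← mul_sum]
      rw [hM1 y, mul_one, hM1 x, one_mul]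
    have s2 : ∑ c ∈ range E, ∑ d ∈ range E, M x c * M y d *
        (max 0 (1 * flp Y x c * (1 - 2 * |pos m c - pos m g|)) / 2) =
        (∑ c ∈ range E, M x c *
        max 0 (1 * ((Y c x - Y (c + 1) x) / 2) * (1 - 2 * |pos m c - pos m g|))) / 2 := by
      rw [sum_div]
      apply sum_congr rfl
      intro c _
      rw [← sum_mul, ← mul_sum, hM1 y]
      unfold flp
      ring
    have s3 : ∑ c ∈ range E, ∑ d ∈ range E, M x c * M y d *
        (max 0 (-1 * flp Y y d * (1 - 2 * |pos m d - pos m g|)) / 2) =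
        (∑ c ∈ range E, M y c *
        max 0 (-1 * ((Y c y - Y (c + 1) y) / 2) * (1 - 2 * |pos m c - pos m g|))) / 2 := by
      rw [sum_comm, sum_div]
      apply sum_congr rfl
      intro c _
      rw [← sum_mul, ← sum_mul, hM1 x]
      unfold flp
      ring
    rw [← s1, ← s2, ← s3, ← sum_add_distrib, ← sum_add_distrib]
    apply sum_congr rfl
    intro c _
    rw [← sum_add_distrib, ← sum_add_distrib]
    apply sum_congr rfl
    intro d _
    ring
  rw [e2]
  unfold pairB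
  apply sum_le_sum
  intro c hc
  apply sum_le_sum
  intro d hd
  rw [mem_range] at hc hd
  by_cases hcx : Y c x = Y (c + 1) x
  · rw [hM0 x c hc hcx]; simp
  by_cases hdy : Y d y = Y (d + 1) y
  · rw [hM0 y d hd hdy]; simp
  apply mul_le_mul_of_nonneg_left _ (mul_nonneg (hM _ _) (hM _ _))
  exact kernel_pt (pos_mem hm hm1 hc) (pos_mem hm hm1 hd) (pos_mem hm hm1 hg) hj
    (flp_cases hsgn hc hcx) (flp_cases hsgn hd hdy)

/-- the pair bound -/
lemma pair_bound (hs : Sweep P E Y)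
    (hm : ∀ c, 0 ≤ m c) (hm1 : ∑ c ∈ range E, m c = 1)
    (hM : ∀ v c, 0 ≤ M v c) (hM1 : ∀ v, ∑ c ∈ range E, M v c = 1)
    (hM0 : ∀ v, ∀ c < E, Y c v = Y (c + 1) v → M v c = 0)
    (hloc : ∀ v, LocIneq E m (fun i => Y i v) (M v)) {j : ℝ} (hj : j ≤ 1 / 2) {x y : V}
    (hxy : x ≠ y) :
    j - nonsep E m (fun i => Y i x) (fun i => Y i y) ≤ pairB E m M Y j x y := by
  rcases hs.order x y hxy with ⟨g, hg, h1, h2⟩ | ⟨g, hg, h1, h2⟩
  · exact pair_aux hs.sgn hm hm1 hM hM1 hM0 hloc hj hg h1 h2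
  · rw [nonsep_comm, pairB_comm]
    exact pair_aux hs.sgn hm hm1 hM hM1 hM0 hloc hj hg h1 h2

/-- at most total charge two at every event -/
lemma charge_le (hs : Sweep P E Y) (hM : ∀ v c, 0 ≤ M v c) (hM1 : ∀ v, ∑ c ∈ range E, M v c = 1)
    (hM0 : ∀ v, ∀ c < E, Y c v = Y (c + 1) v → M v c = 0) {c : ℕ} (hc : c < E) :
    ∑ v, M v c ≤ 2 := by
  have hle : ∀ v, M v c ≤ 1 := fun v => by
    rw [← hM1 v]
    exact single_le_sum (f := fun c => M v c) (fun i _ => hM v i) (mem_range.2 hc)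
  set D := univ.filter fun v => Y c v = 1 ∧ Y (c + 1) v = -1 with hD
  set U := univ.filter fun v => Y c v = -1 ∧ Y (c + 1) v = 1 with hU
  have hD1 : D.card ≤ 1 := by
    rw [card_le_one]
    intro a ha b hb
    rw [hD, mem_filter] at ha hb
    exact hs.down c hc a b ha.2.1 ha.2.2 hb.2.1 hb.2.2
  have hU1 : U.card ≤ 1 := by
    rw [card_le_one]
    intro a ha b hb
    rw [hU, mem_filter] at ha hb
    exact hs.up c hc a b ha.2.1 ha.2.2 hb.2.1 hb.2.2
  have h1 : ∑ v, M v c ≤ ∑ v, ((if v ∈ D then 1 else 0) + (if v ∈ U then 1 else 0) : ℝ) := by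
    apply sum_le_sum
    intro v _
    by_cases hf : Y c v = Y (c + 1) v
    · rw [hM0 v c hc hf]
      split_ifs <;> norm_num
    · rcases hs.sgn c hc.le v with h1 | h1 <;> rcases hs.sgn (c + 1) hc v with h2 | h2
      · exact absurd (h1.trans h2.symm) hf
      · have : v ∈ D := mem_filter.2 ⟨mem_univ _, h1, h2⟩
        rw [if_pos this]
        have := hle v
        split_ifs <;> linarith
      · have : v ∈ U := mem_filter.2 ⟨mem_univ _, h1, h2⟩
        rw [if_pos this]
        have := hle v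
        split_ifs <;> linarith
      · exact absurd (h1.trans h2.symm) hf
  refine h1.trans ?_
  rw [sum_add_distrib, sum_ite_mem, sum_ite_mem, univ_inter, univ_inter]
  simp only [sum_const, nsmul_eq_mul, mul_one]
  have h2 : (D.card : ℝ) ≤ 1 := by exact_mod_cast hD1
  have h3 : (U.card : ℝ) ≤ 1 := by exact_mod_cast hU1
  linarith

/-- sum of the pair bounds -/
lemma sum_pairB (hP : PDStmt) (hMid : MidStmt) (hs : Sweep P E Y) (hV : 0 < Fintype.card V)
    (hM : ∀ v c, 0 ≤ M v c) (hM1 : ∀ v, ∑ c ∈ range E, M v c = 1)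
    (hM0 : ∀ v, ∀ c < E, Y c v = Y (c + 1) v → M v c = 0)
    (hm : ∀ c, 0 ≤ avg M c) (hm1 : ∑ c ∈ range E, avg M c = 1)
    {j : ℝ} (hj0 : 0 ≤ j) (hj : j ≤ 1 / 2) :
    ∑ x, ∑ y, pairB E (avg M) M Y j x y ≤ (Fintype.card V : ℝ) ^ 2 * j ^ 2 / 2 + 1 / 2 := by
  set n : ℝ := ((Fintype.card V : ℕ) : ℝ) with hn
  have hn0 : 0 < n := by rw [hn]; exact_mod_cast hV
  set m := avg M with hmd
  set S : ℕ → ℝ := fun c => ∑ v, M v c with hS
  set A : ℕ → ℝ := fun c => ∑ v, M v c * flp Y v c with hA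
  have hSm : ∀ c, S c = n * m c := by
    intro c
    rw [hmd]
    unfold avg
    rw [← hn]
    field_simp
    rfl
  have key : ∑ x, ∑ y, pairB E m M Y j x y =
      (∑ c ∈ range E, S c * ∑ d ∈ range E, S d *
        (max 0 (j - |pos m c - pos m d|) + max 0 (j - 1 + |pos m c - pos m d|))) / 2 -
      (∑ c ∈ range E, ∑ d ∈ range E, A c * A d *
        (max 0 (j - |pos m c - pos m d|) - max 0 (j - 1 + |pos m c - pos m d|))) / 2 := by
    have e1 : ∑ x, ∑ y, pairB E m M Y j x y = ∑ c ∈ range E, ∑ d ∈ range E, ∑ x, ∑ y,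
        M x c * M y d *
        ((1 + flp Y x c * flp Y y d) / 2 * max 0 (j - 1 + |pos m c - pos m d|) +
          (1 - flp Y x c * flp Y y d) / 2 * max 0 (j - |pos m c - pos m d|)) := by
      unfold pairB
      have h1 : ∀ x : V, ∑ y, ∑ c ∈ range E, ∑ d ∈ range E, M x c * M y d *
        ((1 + flp Y x c * flp Y y d) / 2 * max 0 (j - 1 + |pos m c - pos m d|) +
          (1 - flp Y x c * flp Y y d) / 2 * max 0 (j - |pos m c - pos m d|)) =
          ∑ c ∈ range E, ∑ d ∈ range E, ∑ y, M x c * M y d *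
        ((1 + flp Y x c * flp Y y d) / 2 * max 0 (j - 1 + |pos m c - pos m d|) +
          (1 - flp Y x c * flp Y y d) / 2 * max 0 (j - |pos m c - pos m d|)) := by
        intro x
        rw [sum_comm]
        apply sum_congr rfl
        intro c _
        rw [sum_comm]
      simp only [h1]
      rw [sum_comm]
      apply sum_congr rfl
      intro c _
      rw [sum_comm]
    rw [e1, sum_div, sum_div, ← sum_sub_distrib]
    apply sum_congr rfl
    intro c _
    rw [mul_sum, sum_div, sum_div, ← sum_sub_distrib]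
    apply sum_congr rfl
    intro d _
    set K1 := max 0 (j - 1 + |pos m c - pos m d|)
    set K0 := max 0 (j - |pos m c - pos m d|)
    have e2 : ∑ x, ∑ y, M x c * M y d *
        ((1 + flp Y x c * flp Y y d) / 2 * K1 + (1 - flp Y x c * flp Y y d) / 2 * K0) =
        ∑ x, ∑ y, (M x c * M y d * ((K0 + K1) / 2) -
          (M x c * flp Y x c) * (M y d * flp Y y d) * ((K0 - K1) / 2)) := by
      apply sum_congr rfl
      intro x _
      apply sum_congr rfl
      intro y _
      ring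
    rw [e2]
    simp only [sum_sub_distrib, ← sum_mul, ← mul_sum, hS, hA]
    ring
  rw [key]
  have hpd := hP E (pos m) A j hj0 hj (fun c hc => pos_mem hm hm1 hc)
  have hmain : (∑ c ∈ range E, S c * ∑ d ∈ range E, S d *
        (max 0 (j - |pos m c - pos m d|) + max 0 (j - 1 + |pos m c - pos m d|))) ≤
        n ^ 2 * j ^ 2 + 1 := by
    calc (∑ c ∈ range E, S c * ∑ d ∈ range E, S d *
        (max 0 (j - |pos m c - pos m d|) + max 0 (j - 1 + |pos m c - pos m d|)))
        = n ^ 2 * ∑ c ∈ range E, m c * ∑ d ∈ range E, m d *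
          (max 0 (j - |pos m c - pos m d|) + max 0 (j - 1 + |pos m c - pos m d|)) := by
          rw [mul_sum]
          apply sum_congr rfl
          intro c _
          simp only [hSm]
          rw [mul_sum, mul_sum, mul_sum]
          apply sum_congr rfl
          intro d _
          ring
      _ ≤ n ^ 2 * ∑ c ∈ range E, m c * (j ^ 2 + 1 / n ^ 2) := by
          apply mul_le_mul_of_nonneg_left _ (by positivity)
          apply sum_le_sum
          intro c hc
          rw [mem_range] at hc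
          apply mul_le_mul_of_nonneg_left _ (hm c)
          refine (hMid E m j hm hm1 hj0 hj c hc).trans ?_
          have h2 : m c ≤ 2 / n := by
            have := charge_le hs hM hM1 hM0 hc
            rw [le_div_iff₀ hn0, mul_comm, ← hSm]
            exact this
          have h3 : (m c) ^ 2 ≤ (2 / n) ^ 2 := pow_le_pow_left₀ (hm c) h2 2
          have h4 : (2 / n) ^ 2 / 4 = 1 / n ^ 2 := by field_simp; norm_num
          linarith
      _ = n ^ 2 * j ^ 2 + 1 := by
          rw [← sum_mul, hm1, one_mul]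
          field_simp
  linarith

end

end Pool.Agent.Helper46.Dense
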