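import Pool.Agent.Helper46.Dense.Fix

/-!
The inequality for a pair of vertices and its sum over all pairs.
-/
namespace Pool.Agent.Helper46.Dense

open Finset

lemma sum_split {E g : ℕ} (hg : g < E) (f : ℕ → ℝ) :
    ∑ c ∈ range E, f c = ∑ c ∈ range g, f c + f g + ∑ c ∈ Ico (g + 1) E, f c := by
  rw [← sum_range_succ, range_eq_Ico, range_eq_Ico,
    sum_Ico_consecutive f (Nat.zero_le _) (Nat.succ_le_of_lt hg)]

/-- weighted number of patterns not separating -/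
noncomputable def nonsep (E : ℕ) (m X Y : ℕ → ℝ) : ℝ :=
  ∑ c ∈ range E, m c * (((1 + X c * Y c) / 2 + (1 + X (c + 1) * Y (c + 1)) / 2) / 2)

lemma nonsep_comm (E : ℕ) (m X Y : ℕ → ℝ) : nonsep E m X Y = nonsep E m Y X := by
  unfold nonsep
  apply sum_congr rfl
  intro c _
  rw [mul_comm (X c), mul_comm (X (c + 1))]

lemma pm_le {a b : ℝ} (ha : a = 1 ∨ a = -1) (hb : b = 1 ∨ b = -1) (h : b ≤ a) :
    (1 + a * b) / 2 = 1 - (a - b) / 2 := by
  rcases ha with rfl | rfl <;> rcases hb with rfl | rfl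
  · norm_num
  · norm_num
  · norm_num at h
  · norm_num

/-- betweenness -/
lemma nonsep_eq {E g : ℕ} {m X Y : ℕ → ℝ} (hg : g < E) (hm : ∑ c ∈ range E, m c = 1)
    (hX : ∀ i ≤ E, X i = 1 ∨ X i = -1) (hY : ∀ i ≤ E, Y i = 1 ∨ Y i = -1)
    (h1 : ∀ i ≤ g, Y i ≤ X i) (h2 : ∀ i ≤ E, g < i → X i ≤ Y i) :
    nonsep E m X Y = 1 - (corr E m X g - corr E m Y g) / 2 := by
  rw [← hm]
  unfold nonsep corr
  rw [sum_split hg, sum_split hg (fun c => m c)]
  have e1 : ∑ c ∈ range g, m c * (((1 + X c * Y c) / 2 + (1 + X (c + 1) * Y (c + 1)) / 2) / 2) =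
      ∑ c ∈ range g, m c - (∑ c ∈ range g, m c * ((X c + X (c + 1)) / 2) -
        ∑ c ∈ range g, m c * ((Y c + Y (c + 1)) / 2)) / 2 := by
    rw [← sum_sub_distrib, sum_div, ← sum_sub_distrib]
    · apply sum_congr rfl
      intro c hc
      rw [mem_range] at hc
      rw [pm_le (hX c (by omega)) (hY c (by omega)) (h1 c (by omega)),
        pm_le (hX (c + 1) (by omega)) (hY (c + 1) (by omega)) (h1 (c + 1) (by omega))]
      ring
  have e2 : ∑ c ∈ Ico (g + 1) E,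
      m c * (((1 + X c * Y c) / 2 + (1 + X (c + 1) * Y (c + 1)) / 2) / 2) =
      ∑ c ∈ Ico (g + 1) E, m c + (∑ c ∈ Ico (g + 1) E, m c * ((X c + X (c + 1)) / 2) -
        ∑ c ∈ Ico (g + 1) E, m c * ((Y c + Y (c + 1)) / 2)) / 2 := by
    rw [← sum_sub_distrib, sum_div, ← sum_add_distrib]
    · apply sum_congr rfl
      intro c hc
      rw [mem_Ico] at hc
      rw [mul_comm (X c), mul_comm (X (c + 1)),
        pm_le (hY c (by omega)) (hX c (by omega)) (h2 c (by omega) (by omega)),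
        pm_le (hY (c + 1) (by omega)) (hX (c + 1) (by omega)) (h2 (c + 1) (by omega) (by omega))]
      ring
  rw [e1, e2, pm_le (hX g hg.le) (hY g hg.le) (h1 g le_rfl), mul_comm (X (g + 1)),
    pm_le (hY (g + 1) (by omega)) (hX (g + 1) (by omega)) (h2 (g + 1) (by omega) (by omega))]
  ring

/-- the kernel inequality on the circle of length two. -/
lemma kernel_pt {a b g j s t : ℝ} (ha : 0 ≤ a ∧ a ≤ 1) (hb : 0 ≤ b ∧ b ≤ 1)
    (hg : 0 ≤ g ∧ g ≤ 1) (hj : j ≤ 1 / 2) (hs : s = 1 ∨ s = -1) (ht : t = 1 ∨ t = -1) :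
    j - (1 - max 0 (1 * s * (1 - 2 * |a - g|)) / 2 - max 0 (-1 * t * (1 - 2 * |b - g|)) / 2) ≤
      (1 + s * t) / 2 * max 0 (j - 1 + |a - b|) + (1 - s * t) / 2 * max 0 (j - |a - b|) := by
  have h1 : |a - b| ≤ |a - g| + |b - g| := by
    have := abs_sub_le a g b
    rwa [abs_sub_comm g b] at this
  have h2 : |b - g| ≤ |a - b| + |a - g| := by
    have := abs_sub_le b a g
    rwa [abs_sub_comm b a] at this
  have h3 : |a - g| ≤ |a - b| + |b - g| := abs_sub_le a b g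
  have ha1 : |a - g| ≤ 1 := abs_sub_le_iff.2 ⟨by linarith [ha.2, hg.1], by linarith [ha.1, hg.2]⟩
  have hb1 : |b - g| ≤ 1 := abs_sub_le_iff.2 ⟨by linarith [hb.2, hg.1], by linarith [hb.1, hg.2]⟩
  have h4 : 1 / 2 < |a - g| → 1 / 2 < |b - g| → |a - b| + |a - g| + |b - g| ≤ 2 := by
    intro h5 h6
    rcases abs_cases (a - g) with ⟨e1, e1'⟩ | ⟨e1, e1'⟩ <;>
      rcases abs_cases (b - g) with ⟨e2, e2'⟩ | ⟨e2, e2'⟩ <;>
      rcases abs_cases (a - b) with ⟨e3, e3'⟩ | ⟨e3, e3'⟩ <;>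
      rw [e1] at h5 ⊢ <;> rw [e2] at h6 ⊢ <;> rw [e3] <;>
      linarith [ha.1, ha.2, hb.1, hb.2, hg.1, hg.2]
  set A := |a - g| with hA
  set B := |b - g| with hB
  set D := |a - b| with hD
  rcases hs with rfl | rfl <;> rcases ht with rfl | rfl
  · -- s = t = 1
    have e : (1 + (1 : ℝ) * 1) / 2 * max 0 (j - 1 + D) + (1 - 1 * 1) / 2 * max 0 (j - D) =
        max 0 (j - 1 + D) := by ring
    rw [e]
    have m1 := le_max_left (0 : ℝ) (j - 1 + D)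
    have m2 := le_max_right (0 : ℝ) (j - 1 + D)
    rcases max_cases (0 : ℝ) (1 * 1 * (1 - 2 * A)) with ⟨e1, e1'⟩ | ⟨e1, e1'⟩ <;>
      rcases max_cases (0 : ℝ) (-1 * 1 * (1 - 2 * B)) with ⟨e2, e2'⟩ | ⟨e2, e2'⟩ <;>
      rw [e1, e2] <;> linarith
  · have e : (1 + (1 : ℝ) * -1) / 2 * max 0 (j - 1 + D) + (1 - 1 * -1) / 2 * max 0 (j - D) =
        max 0 (j - D) := by ring
    rw [e]
    have m1 := le_max_left (0 : ℝ) (j - D)
    have m2 := le_max_right (0 : ℝ) (j - D)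
    rcases max_cases (0 : ℝ) (1 * 1 * (1 - 2 * A)) with ⟨e1, e1'⟩ | ⟨e1, e1'⟩ <;>
      rcases max_cases (0 : ℝ) (-1 * -1 * (1 - 2 * B)) with ⟨e2, e2'⟩ | ⟨e2, e2'⟩ <;>
      rw [e1, e2] <;> linarith
  · have e : (1 + (-1 : ℝ) * 1) / 2 * max 0 (j - 1 + D) + (1 - -1 * 1) / 2 * max 0 (j - D) =
        max 0 (j - D) := by ring
    rw [e]
    have m1 := le_max_left (0 : ℝ) (j - D)
    have m2 := le_max_right (0 : ℝ) (j - D)
    rcases max_cases (0 : ℝ) (1 * -1 * (1 - 2 * A)) with ⟨e1, e1'⟩ | ⟨e1, e1'⟩ <;>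
      rcases max_cases (0 : ℝ) (-1 * 1 * (1 - 2 * B)) with ⟨e2, e2'⟩ | ⟨e2, e2'⟩ <;>
      rw [e1, e2]
    · linarith
    · linarith
    · linarith
    · have := h4 (by linarith) (by linarith)
      linarith
  · have e : (1 + (-1 : ℝ) * -1) / 2 * max 0 (j - 1 + D) + (1 - -1 * -1) / 2 * max 0 (j - D) =
        max 0 (j - 1 + D) := by ring
    rw [e]
    have m1 := le_max_left (0 : ℝ) (j - 1 + D)
    have m2 := le_max_right (0 : ℝ) (j - 1 + D)
    rcases max_cases (0 : ℝ) (1 * -1 * (1 - 2 * A)) with ⟨e1, e1'⟩ | ⟨e1, e1'⟩ <;>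
      rcases max_cases (0 : ℝ) (-1 * -1 * (1 - 2 * B)) with ⟨e2, e2'⟩ | ⟨e2, e2'⟩ <;>
      rw [e1, e2] <;> linarith

end Pool.Agent.Helper46.Dense
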