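import Pool.Agent.Helper46.Dense.Core

/-!
From points in the plane to the abstract half turn.
-/
namespace Pool.Agent.Helper46.Dense

open Finset Pool.Agent.Helper46.Peel

universe u

variable {V : Type u} [Fintype V]

/-- coordinates in general position such that all line-cut sets have cut at most `c`. -/
theorem coords_exist (p : V → Plane) (hp : Function.Injective p)
    (hgen : ∀ u v w : V, u ≠ v → u ≠ w → v ≠ w → ¬ Collinear ℝ ({p u, p v, p w} : Set Plane))
    (G : SimpleGraph V) (c : ℕ)
    (hc : ∀ a b : Plane, a ≠ b → (∀ v, p v ∉ line[ℝ, a, b]) → crossings p G a b ≤ c) :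
    open Classical in ∃ x y : V → ℝ, GenPos x y ∧ ∀ S, Below x y S → cut G S ≤ c := by
  classical
  -- level sets give cuts
  have hlev : ∀ (α β γ : ℝ) (S : Finset V), (α ≠ 0 ∨ β ≠ 0) → (∀ v, lf α β (p v) ≠ γ) →
      (∀ v, v ∈ S ↔ lf α β (p v) < γ) → cut G S ≤ c := by
    intro α β γ S h0 hav hS
    obtain ⟨a, b, hab, hline⟩ := exists_line α β γ h0
    rw [← crossings_eq p G hline hav hS]
    apply hc a b hab
    intro v hv
    exact hav v ((hline _).1 hv)
  -- generic shear
  set B : Finset ℝ := (univ : Finset (V × V)).image fun q =>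
    -((p q.1 0 - p q.2 0) / (p q.1 1 - p q.2 1)) with hB
  obtain ⟨s, hs⟩ := Infinite.exists_notMem_finset B
  set x : V → ℝ := fun v => p v 0 + s * p v 1 with hx
  set y : V → ℝ := fun v => p v 1 with hy
  have hinj : Function.Injective x := by
    intro u v huv
    by_contra hne
    simp only [hx] at huv
    by_cases h1 : p u 1 = p v 1
    · apply hne
      apply hp
      ext i
      fin_cases i
      · rw [h1] at huv; simpa using huv
      · simpa using h1
    · apply hs
      rw [hB, mem_image]
      refine ⟨(u, v), mem_univ _, ?_⟩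
      have : p u 1 - p v 1 ≠ 0 := sub_ne_zero.2 h1
      field_simp
      linarith
  have hg : GenPos x y := by
    refine ⟨hinj, ?_⟩
    intro u v w huv hwu hwv heq
    apply hgen u v w huv (Ne.symm hwu) (Ne.symm hwv)
    have hxx : x v - x u ≠ 0 := sub_ne_zero.2 fun h' => huv (hinj h').symm
    set t := (x w - x u) / (x v - x u) with ht
    have e1 : x w - x u = t * (x v - x u) := by rw [ht, div_mul_cancel₀ _ hxx]
    have e2 : y w - y u = t * (y v - y u) := by
      unfold ln slp at heq
      rw [heq, ht]
      field_simp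
      ring
    rw [collinear_iff_of_mem (p₀ := p u) (by simp)]
    refine ⟨p v - p u, ?_⟩
    intro z hz
    simp only [Set.mem_insert_iff, Set.mem_singleton_iff] at hz
    rcases hz with rfl | rfl | rfl
    · exact ⟨0, by simp⟩
    · exact ⟨1, by simp⟩
    · refine ⟨t, ?_⟩
      simp only [hx, hy] at e1 e2
      ext i
      fin_cases i
      · simp only [vadd_eq_add, PiLp.add_apply, PiLp.smul_apply, PiLp.sub_apply, smul_eq_mul,
          Fin.zero_eta]
        linear_combination e1 - s * e2
      · simp only [vadd_eq_add, PiLp.add_apply, PiLp.smul_apply, PiLp.sub_apply, smul_eq_mul,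
          Fin.mk_one]
        linear_combination e2
  refine ⟨x, y, hg, ?_⟩
  rintro S ⟨m, b, h1, h2⟩
  apply hlev (-m) (1 - m * s) b S
  · by_cases hm : m = 0
    · right; rw [hm]; norm_num
    · left; exact neg_ne_zero.2 hm
  · intro v hv
    apply h2 v
    simp only [lf] at hv
    simp only [hx, hy]
    linarith
  · intro v
    rw [h1 v]
    simp only [lf, hx, hy]
    constructor <;> intro h <;> linarith

theorem dense_final (hK : KakutaniStmt.{u}) (hL : LocStmt) (hP : PDStmt) (hMid : MidStmt)
    (p : V → Plane) (hp : Function.Injective p)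
    (hgen : ∀ u v w : V, u ≠ v → u ≠ w → v ≠ w → ¬ Collinear ℝ ({p u, p v, p w} : Set Plane))
    (G : SimpleGraph V) {n k : ℕ} (hn : Fintype.card V = n)
    (he : n * k < G.edgeSet.ncard) (hnk : n ≤ 4 * k + 2) :
    ∃ a b : Plane, a ≠ b ∧ (∀ v, p v ∉ line[ℝ, a, b]) ∧ k ^ 2 + k + 1 ≤ crossings p G a b := by
  classical
  by_contra hcon
  push Not at hcon
  obtain ⟨x, y, hg, hc⟩ := coords_exist p hp hgen G (k ^ 2 + k) (by
    intro a b hab hav
    have := hcon a b hab hav
    omega)
  have he' : 2 * (n * k) + 2 ≤ ordE G := by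
    rw [ordE_eq]
    omega
  have hV : 1 ≤ Fintype.card V := by
    by_contra hlt
    have h0 : Fintype.card V = 0 := by omega
    have : IsEmpty V := Fintype.card_eq_zero_iff.1 h0
    have : G.edgeSet = ∅ := by
      rw [SimpleGraph.edgeSet_eq_empty]
      ext u
      exact isEmptyElim u
    rw [this] at he
    simp at he
  obtain ⟨E, Y, hs⟩ := sweep_exists hg hV
  have := core_dense hK hL hP hMid G hs hc hn he' hnk
  omega

end Pool.Agent.Helper46.Dense
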