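import Pool.Agent.Helper46.Peel.Geom
import Pool.Agent.Helper46.Dense.Stmts

/-!
The half turn of halving lines of a finite point set in general position, as a finite sequence of
sign patterns.
-/
namespace Pool.Agent.Helper46.Dense

open Finset Pool.Agent.Helper46.Peel

variable {V : Type*} [Fintype V] [DecidableEq V]

/-- A half turn of (almost) halving bipartitions. -/
structure Sweep (P : Finset V → Prop) (E : ℕ) (Y : ℕ → V → ℝ) : Prop where
  pos : 0 < E
  sgn : ∀ i ≤ E, ∀ v, Y i v = 1 ∨ Y i v = -1
  anti : ∀ v, Y E v = - Y 0 v
  bal : ∀ i < E, |∑ v, Y i v| ≤ 1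
  good : ∀ i < E, ∃ S : Finset V, P S ∧ ∀ v, Y i v = if v ∈ S then -1 else 1
  order : ∀ u v, u ≠ v →
    (∃ g < E, (∀ i ≤ g, Y i v ≤ Y i u) ∧ (∀ i ≤ E, g < i → Y i u ≤ Y i v)) ∨
    (∃ g < E, (∀ i ≤ g, Y i u ≤ Y i v) ∧ (∀ i ≤ E, g < i → Y i v ≤ Y i u))
  down : ∀ i < E, ∀ u v, Y i u = 1 → Y (i + 1) u = -1 → Y i v = 1 → Y (i + 1) v = -1 → u = v
  up : ∀ i < E, ∀ u v, Y i u = -1 → Y (i + 1) u = 1 → Y i v = -1 → Y (i + 1) v = 1 → u = v

/-- a non-critical value with exactly `i` elements of `C` below. -/
lemma exists_between (C : Finset ℝ) (i : ℕ) (hi : i ≤ C.card) :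
    ∃ m : ℝ, m ∉ C ∧ (C.filter (· < m)).card = i := by
  induction i with
  | zero =>
    rcases C.eq_empty_or_nonempty with rfl | hne
    · exact ⟨0, notMem_empty _, by simp⟩
    · refine ⟨C.min' hne - 1, ?_, ?_⟩
      · intro h
        have := C.min'_le _ h
        linarith
      · rw [card_eq_zero, filter_eq_empty_iff]
        intro x hx
        have := C.min'_le x hx
        linarith
  | succ i ih =>
    obtain ⟨m, hm, hc⟩ := ih (by omega)
    -- the next element of `C`
    have hne : (C.filter (m < ·)).Nonempty := by
      rw [← card_pos]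
      have h1 : (C.filter (· < m)).card + (C.filter (m < ·)).card = C.card := by
        rw [← card_union_of_disjoint]
        · congr 1
          ext x
          simp only [mem_union, mem_filter]
          constructor
          · rintro (h | h) <;> exact h.1
          · intro hx
            rcases lt_trichotomy x m with h | h | h
            · exact Or.inl ⟨hx, h⟩
            · exact absurd (h ▸ hx) hm
            · exact Or.inr ⟨hx, h⟩
        · rw [disjoint_left]
          intro x hx hx'
          rw [mem_filter] at hx hx'
          linarith [hx.2, hx'.2]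
      omega
    set s := (C.filter (m < ·)).min' hne with hs
    have hsC : s ∈ C.filter (m < ·) := min'_mem _ _
    rw [mem_filter] at hsC
    -- a point just above `s`
    rcases (C.filter (s < ·)).eq_empty_or_nonempty with he | hne2
    · refine ⟨s + 1, ?_, ?_⟩
      · intro h
        have : s + 1 ∈ C.filter (s < ·) := mem_filter.2 ⟨h, by linarith⟩
        rw [he] at this
        exact notMem_empty _ this
      · have : C.filter (· < s + 1) = insert s (C.filter (· < m)) := by
          ext x
          simp only [mem_filter, mem_insert]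
          constructor
          · rintro ⟨hx, hlt⟩
            rcases lt_trichotomy x m with h | h | h
            · exact Or.inr ⟨hx, h⟩
            · exact absurd (h ▸ hx) hm
            · left
              have h1 : s ≤ x := min'_le _ _ (mem_filter.2 ⟨hx, h⟩)
              by_contra hne'
              have : x ∈ C.filter (s < ·) := mem_filter.2 ⟨hx, lt_of_le_of_ne h1 (Ne.symm hne')⟩
              rw [he] at this
              exact notMem_empty _ this
          · rintro (rfl | ⟨hx, hlt⟩)
            · exact ⟨hsC.1, by linarith⟩
            · exact ⟨hx, by linarith [hsC.2]⟩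
        rw [this, card_insert_of_notMem, hc]
        rw [mem_filter]
        rintro ⟨-, h⟩
        linarith [hsC.2]
    · set t := (C.filter (s < ·)).min' hne2 with ht
      have htC : t ∈ C.filter (s < ·) := min'_mem _ _
      rw [mem_filter] at htC
      refine ⟨(s + t) / 2, ?_, ?_⟩
      · intro h
        have : t ≤ (s + t) / 2 := min'_le _ _ (mem_filter.2 ⟨h, by linarith [htC.2]⟩)
        linarith [htC.2]
      · have : C.filter (· < (s + t) / 2) = insert s (C.filter (· < m)) := by
          ext x
          simp only [mem_filter, mem_insert]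
          constructor
          · rintro ⟨hx, hlt⟩
            rcases lt_trichotomy x m with h | h | h
            · exact Or.inr ⟨hx, h⟩
            · exact absurd (h ▸ hx) hm
            · left
              have h1 : s ≤ x := min'_le _ _ (mem_filter.2 ⟨hx, h⟩)
              by_contra hne'
              have : t ≤ x := min'_le _ _ (mem_filter.2 ⟨hx, lt_of_le_of_ne h1 (Ne.symm hne')⟩)
              linarith [htC.2]
          · rintro (rfl | ⟨hx, hlt⟩)
            · exact ⟨hsC.1, by linarith [htC.2]⟩
            · exact ⟨hx, by linarith [hsC.2, htC.2]⟩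
        rw [this, card_insert_of_notMem, hc]
        rw [mem_filter]
        rintro ⟨-, h⟩
        linarith [hsC.2]


section geometry

variable {x y : V → ℝ}

/-- critical slopes -/
noncomputable def crit (x y : V → ℝ) : Finset ℝ :=
  ((univ : Finset (V × V)).filter fun q => q.1 ≠ q.2).image fun q => slp x y q.1 q.2

lemma slp_mem {u v : V} (h : u ≠ v) : slp x y u v ∈ crit x y :=
  mem_image.2 ⟨(u, v), mem_filter.2 ⟨mem_univ _, h⟩, rfl⟩

lemma slp_comm (u v : V) : slp x y u v = slp x y v u := by
  unfold slp
  rw [← neg_sub (y u) (y v), ← neg_sub (x u) (x v), neg_div_neg_eq]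

/-- comparison of heights at slope `m`. -/
lemma hgt_lt_iff {m : ℝ} {u v : V} (h : x u < x v) :
    hgt x y m u < hgt x y m v ↔ m < slp x y u v := by
  unfold hgt slp
  have h0 : 0 < x v - x u := sub_pos.2 h
  rw [lt_div_iff₀ h0]
  constructor <;> intro h' <;> nlinarith

lemma hgt_gt_iff {m : ℝ} {u v : V} (h : x u < x v) :
    hgt x y m v < hgt x y m u ↔ slp x y u v < m := by
  unfold hgt slp
  have h0 : 0 < x v - x u := sub_pos.2 h
  rw [div_lt_iff₀ h0]
  constructor <;> intro h' <;> nlinarith

lemma hgt_ne {m : ℝ} (hg : GenPos x y) (hm : m ∉ crit x y) {u v : V} (huv : u ≠ v) :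
    hgt x y m u ≠ hgt x y m v := by
  intro h
  apply hm
  have : slp x y u v = m := by
    have hxx : x v - x u ≠ 0 := sub_ne_zero.2 fun h' => huv (hg.inj h').symm
    unfold slp
    rw [div_eq_iff hxx]
    unfold hgt at h
    linarith
  rw [← this]
  exact slp_mem huv

/-- strict initial segments at non-critical slopes -/
lemma exists_lower (hg : GenPos x y) {m : ℝ} (hm : m ∉ crit x y) (h : ℕ)
    (hh : h ≤ Fintype.card V) :
    ∃ S : Finset V, (∀ z ∈ S, ∀ w ∉ S, hgt x y m z < hgt x y m w) ∧ S.card = h := by
  obtain ⟨S, hS, hc⟩ := exists_ini (x := x) (y := y) m h hh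
  refine ⟨S, fun z hz w hw => lt_of_le_of_ne (hS z hz w hw) ?_, hc⟩
  exact hgt_ne hg hm (fun h' => hw (h' ▸ hz))

/-- two consecutive lower sets differ in at most one point -/
lemma lower_step (hg : GenPos x y) {m m' s : ℝ} (hmm : m < m')
    (hs : ∀ c ∈ crit x y, m < c → c < m' → c = s) {S S' : Finset V}
    (hS : ∀ z ∈ S, ∀ w ∉ S, hgt x y m z < hgt x y m w)
    (hS' : ∀ z ∈ S', ∀ w ∉ S', hgt x y m' z < hgt x y m' w)
    {u v w : V} (hu : u ∈ S) (hu' : u ∉ S') (hv : v ∈ S) (hv' : v ∉ S')
    (hw : w ∉ S) (hw' : w ∈ S') : u = v := by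
  by_contra hne
  have key : ∀ u : V, u ∈ S → u ∉ S' → u ≠ w ∧ slp x y u w = s := by
    intro u hu hu'
    have huw : u ≠ w := fun h => hw (h ▸ hu)
    refine ⟨huw, ?_⟩
    have h1 := hS u hu w hw
    have h2 := hS' w hw' u hu'
    rcases lt_or_gt_of_ne (fun h => huw (hg.inj h)) with hx | hx
    · rw [hgt_lt_iff hx] at h1
      rw [hgt_gt_iff hx] at h2
      exact hs _ (slp_mem huw) h1 h2
    · -- impossible
      rw [hgt_gt_iff hx] at h1
      rw [hgt_lt_iff hx] at h2
      linarith
  obtain ⟨h1, h1'⟩ := key u hu hu'
  obtain ⟨h2, h2'⟩ := key v hv hv'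
  apply hg.off w u v (Ne.symm h1) h2 (Ne.symm hne)
  unfold ln
  rw [slp_comm w u, h1']
  have hxx : x w - x v ≠ 0 := sub_ne_zero.2 fun h' => h2 (hg.inj h').symm
  unfold slp at h2'
  rw [div_eq_iff hxx] at h2'
  linarith

/-- **The sweep exists.** -/
theorem sweep_exists (hg : GenPos x y) (hV : 1 ≤ Fintype.card V) :
    ∃ (E : ℕ) (Y : ℕ → V → ℝ), Sweep (Below x y) E Y := by
  set C := crit x y with hC
  set T := C.card with hT
  set n := Fintype.card V with hn
  set h := n / 2 with hh
  have hex : ∀ i : ℕ, ∃ m : ℝ, i ≤ T → m ∉ C ∧ (C.filter (· < m)).card = i := by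
    intro i
    by_cases hi : i ≤ T
    · obtain ⟨m, hm⟩ := exists_between C i hi
      exact ⟨m, fun _ => hm⟩
    · exact ⟨0, fun h => absurd h hi⟩
  choose m hm using hex
  have hex2 : ∀ i : ℕ, ∃ S : Finset V, i ≤ T →
      (∀ z ∈ S, ∀ w ∉ S, hgt x y (m i) z < hgt x y (m i) w) ∧ S.card = h := by
    intro i
    by_cases hi : i ≤ T
    · obtain ⟨S, hS⟩ := exists_lower hg (hm i hi).1 h (by omega)
      exact ⟨S, fun _ => hS⟩
    · exact ⟨∅, fun h => absurd h hi⟩
  choose S hS using hex2
  -- position of a critical slope
  have hpos : ∀ c ∈ C, ∀ i ≤ T, (m i < c ↔ i ≤ (C.filter (· < c)).card) := by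
    intro c hc i hi
    obtain ⟨h1, h2⟩ := hm i hi
    constructor
    · intro hlt
      rw [← h2]
      apply card_le_card
      intro z hz
      rw [mem_filter] at hz ⊢
      exact ⟨hz.1, hz.2.trans hlt⟩
    · intro hle
      by_contra hcon
      push Not at hcon
      have hlt : c < m i := lt_of_le_of_ne hcon fun h' => h1 (h' ▸ hc)
      have : (insert c (C.filter (· < c))).card ≤ (C.filter (· < m i)).card := by
        apply card_le_card
        intro z hz
        rw [mem_insert, mem_filter] at hz
        rw [mem_filter]
        rcases hz with rfl | hz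
        · exact ⟨hc, hlt⟩
        · exact ⟨hz.1, hz.2.trans hlt⟩
      rw [card_insert_of_notMem (by simp)] at this
      omega
  have hgC : ∀ c ∈ C, (C.filter (· < c)).card < T := by
    intro c hc
    apply card_lt_card
    rw [filter_ssubset]
    exact ⟨c, hc, lt_irrefl c⟩
  have hcard : ∀ i ≤ T, (S i).card = h := fun i hi => (hS i hi).2
  -- the patterns
  set Y : ℕ → V → ℝ := fun i v => if i ≤ T then (if v ∈ S i then -1 else 1)
    else (if v ∈ S 0 then 1 else -1) with hY
  have hYle : ∀ i ≤ T, ∀ v, Y i v = if v ∈ S i then -1 else 1 := by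
    intro i hi v
    simp only [hY, if_pos hi]
  have hYgt : ∀ v, Y (T + 1) v = if v ∈ S 0 then 1 else -1 := by
    intro v
    simp only [hY, if_neg (Nat.not_succ_le_self T)]
  -- disjointness of the first and the last lower set
  have hx0 : ∀ u v : V, x u < x v → hgt x y (m 0) u < hgt x y (m 0) v := by
    intro u v huv
    rw [hgt_lt_iff huv]
    have hne : u ≠ v := fun h' => by rw [h'] at huv; exact lt_irrefl _ huv
    exact (hpos _ (slp_mem hne) 0 (Nat.zero_le _)).2 (Nat.zero_le _)
  have hxT : ∀ u v : V, x u < x v → hgt x y (m T) v < hgt x y (m T) u := by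
    intro u v huv
    rw [hgt_gt_iff huv]
    have hne : u ≠ v := fun h' => by rw [h'] at huv; exact lt_irrefl _ huv
    have h1 := (hpos _ (slp_mem hne) T le_rfl).not.2 (not_le.2 (hgC _ (slp_mem hne)))
    push Not at h1
    exact lt_of_le_of_ne h1 fun h' => (hm T le_rfl).1 (h' ▸ slp_mem hne)
  have hdisj : ∀ v, v ∈ S 0 → v ∈ S T → False := by
    intro v hv hv'
    have hsub : (S 0)ᶜ ⊆ (S T).erase v := by
      intro w hw
      rw [mem_compl] at hw
      have hlt := (hS 0 (Nat.zero_le _)).1 v hv w hw
      have hvw : v ≠ w := fun h' => hw (h' ▸ hv)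
      have hxl : x v < x w := by
        by_contra hcon
        have : x w < x v := lt_of_le_of_ne (not_lt.1 hcon) fun h' => hvw (hg.inj h').symm
        exact absurd (hx0 w v this) (not_lt.2 hlt.le)
      rw [mem_erase]
      refine ⟨hvw.symm, ?_⟩
      by_contra hwT
      have h3 := (hS T le_rfl).1 v hv' w hwT
      exact absurd (hxT v w hxl) (not_lt.2 h3.le)
    have := card_le_card hsub
    rw [card_compl, card_erase_of_mem hv', hcard 0 (Nat.zero_le _), hcard T le_rfl] at this
    omega
  refine ⟨T + 1, Y, Nat.succ_pos _, ?_, ?_, ?_, ?_, ?_, ?_, ?_⟩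
  · -- signs
    intro i hi v
    by_cases hiT : i ≤ T
    · rw [hYle i hiT]; split_ifs <;> simp
    · have : i = T + 1 := by omega
      rw [this, hYgt]; split_ifs <;> simp
  · intro v
    rw [hYgt, hYle 0 (Nat.zero_le _)]
    split_ifs <;> simp
  · intro i hi
    have hiT : i ≤ T := by omega
    have : ∑ v, Y i v = (n : ℝ) - 2 * h := by
      simp only [hYle i hiT]
      have : ∀ v, (if v ∈ S i then (-1 : ℝ) else 1) = 1 - 2 * (if v ∈ S i then 1 else 0) := by
        intro v; split_ifs <;> norm_num
      simp only [this]
      rw [sum_sub_distrib, ← mul_sum, sum_ite_mem, univ_inter]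
      simp [hcard i hiT, hn]
    rw [this]
    have h1 : (n : ℝ) - 2 * h = ((n % 2 : ℕ) : ℝ) := by
      have : n = 2 * h + n % 2 := by omega
      have h2 : (n : ℝ) = ((2 * h + n % 2 : ℕ) : ℝ) := by rw [← this]
      rw [h2]; push_cast; ring
    rw [h1, abs_of_nonneg (by positivity)]
    have : n % 2 ≤ 1 := by omega
    exact_mod_cast this
  · intro i hi
    have hiT : i ≤ T := by omega
    exact ⟨S i, below_of_strict (hS i hiT).1, hYle i hiT⟩
  · -- order
    have key : ∀ u v : V, x u < x v →
        ∃ g < T + 1, (∀ i ≤ g, Y i u ≤ Y i v) ∧ (∀ i ≤ T + 1, g < i → Y i v ≤ Y i u) := by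
      intro u v huv
      have hne : u ≠ v := fun h' => by rw [h'] at huv; exact lt_irrefl _ huv
      have hcs := slp_mem (x := x) (y := y) hne
      have hg1 := hgC _ hcs
      set g := (C.filter (· < slp x y u v)).card with hgd
      have hle : ∀ i ≤ g, Y i u ≤ Y i v := by
        intro i hi
        have hiT : i ≤ T := by omega
        have h1 := (hgt_lt_iff (y := y) huv).2 ((hpos _ hcs i hiT).2 hi)
        rw [hYle i hiT, hYle i hiT]
        by_cases hv : v ∈ S i
        · have hu : u ∈ S i := by
            by_contra hu
            exact absurd ((hS i hiT).1 v hv u hu) (not_lt.2 h1.le)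
          simp [hu, hv]
        · simp only [hv, if_false]
          split_ifs <;> norm_num
      refine ⟨g, by omega, hle, ?_⟩
      intro i hi hgi
      by_cases hiT : i ≤ T
      · have h0 := (hpos _ hcs i hiT).not.2 (not_le.2 hgi)
        push Not at h0
        have h1 := (hgt_gt_iff (y := y) huv).2
          (lt_of_le_of_ne h0 fun h' => (hm i hiT).1 (h' ▸ hcs))
        rw [hYle i hiT, hYle i hiT]
        by_cases hu : u ∈ S i
        · have hv : v ∈ S i := by
            by_contra hv
            exact absurd ((hS i hiT).1 u hu v hv) (not_lt.2 h1.le)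
          simp [hu, hv]
        · simp only [hu, if_false]
          split_ifs <;> norm_num
      · have : i = T + 1 := by omega
        have h0 := hle 0 (Nat.zero_le _)
        rw [hYle 0 (Nat.zero_le _), hYle 0 (Nat.zero_le _)] at h0
        rw [this, hYgt, hYgt]
        split_ifs at h0 ⊢ <;> linarith
    intro u v huv
    rcases lt_or_gt_of_ne (fun h => huv (hg.inj h)) with hx | hx
    · exact Or.inr (key u v hx)
    · exact Or.inl (key v u hx)
  · -- down
    intro i hi u v h1 h2 h3 h4
    have hiT : i ≤ T := by omega
    rw [hYle i hiT] at h1 h3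
    have hu : u ∉ S i := by intro h'; rw [if_pos h'] at h1; norm_num at h1
    have hv : v ∉ S i := by intro h'; rw [if_pos h'] at h3; norm_num at h3
    by_cases hi1 : i + 1 ≤ T
    · rw [hYle _ hi1] at h2 h4
      have hu' : u ∈ S (i + 1) := by by_contra h'; rw [if_neg h'] at h2; norm_num at h2
      have hv' : v ∈ S (i + 1) := by by_contra h'; rw [if_neg h'] at h4; norm_num at h4
      have hex3 : ∃ w, w ∈ S i ∧ w ∉ S (i + 1) := by
        by_contra hcon
        push Not at hcon
        have hss : insert u (S i) ⊆ S (i + 1) := by
          intro z hz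
          rcases mem_insert.1 hz with rfl | hz
          · exact hu'
          · exact hcon z hz
        have := card_le_card hss
        rw [card_insert_of_notMem hu, hcard i hiT, hcard _ hi1] at this
        omega
      obtain ⟨w, hw, hw'⟩ := hex3
      by_contra hne
      have hs1 := hS i hiT
      have hs2 := hS _ hi1
      have key : ∀ u : V, u ∉ S i → u ∈ S (i + 1) → u ≠ w ∧
          m i < slp x y u w ∧ slp x y u w < m (i + 1) := by
        intro u hu hu'
        have huw : u ≠ w := fun h => hu (h ▸ hw)
        refine ⟨huw, ?_⟩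
        have h1 := hs1.1 w hw u hu
        have h2 := hs2.1 u hu' w hw'
        rcases lt_or_gt_of_ne (fun h => huw (hg.inj h)) with hx | hx
        · rw [hgt_gt_iff hx] at h1
          rw [hgt_lt_iff hx] at h2
          exfalso
          have e1 := (hpos _ (slp_mem huw) (i + 1) hi1).1 h2
          have e2 := (hpos _ (slp_mem huw) i hiT).2 (by omega)
          linarith
        · rw [hgt_lt_iff hx] at h1
          rw [hgt_gt_iff hx] at h2
          rw [slp_comm u w]
          exact ⟨h1, h2⟩
      obtain ⟨a1, a2, a3⟩ := key u hu hu'
      obtain ⟨b1, b2, b3⟩ := key v hv hv'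
      have hsame : slp x y u w = slp x y v w := by
        have e1 := (hpos _ (slp_mem a1) i hiT).1 a2
        have e2 := (hpos _ (slp_mem a1) (i + 1) hi1).not.1 (not_lt.2 a3.le)
        have f1 := (hpos _ (slp_mem b1) i hiT).1 b2
        have f2 := (hpos _ (slp_mem b1) (i + 1) hi1).not.1 (not_lt.2 b3.le)
        rcases lt_trichotomy (slp x y u w) (slp x y v w) with hlt | heq | hgt
        · exfalso
          have : (insert (slp x y u w) (C.filter (· < slp x y u w))).card ≤
              (C.filter (· < slp x y v w)).card := by
            apply card_le_card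
            intro z hz
            rw [mem_insert, mem_filter] at hz
            rw [mem_filter]
            rcases hz with rfl | hz
            · exact ⟨slp_mem a1, hlt⟩
            · exact ⟨hz.1, hz.2.trans hlt⟩
          rw [card_insert_of_notMem (by simp)] at this
          omega
        · exact heq
        · exfalso
          have : (insert (slp x y v w) (C.filter (· < slp x y v w))).card ≤
              (C.filter (· < slp x y u w)).card := by
            apply card_le_card
            intro z hz
            rw [mem_insert, mem_filter] at hz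
            rw [mem_filter]
            rcases hz with rfl | hz
            · exact ⟨slp_mem b1, hgt⟩
            · exact ⟨hz.1, hz.2.trans hgt⟩
          rw [card_insert_of_notMem (by simp)] at this
          omega
      apply hg.off w u v (Ne.symm a1) b1 (Ne.symm hne)
      unfold ln
      rw [slp_comm w u, hsame]
      have hxx : x w - x v ≠ 0 := sub_ne_zero.2 fun h' => b1 (hg.inj h').symm
      unfold slp
      field_simp
      ring
    · -- the last step: the complement of the union has at most one element
      have hiT' : i = T := by omega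
      rw [hiT', hYgt] at h2 h4
      rw [hiT'] at hu hv
      have hu0 : u ∉ S 0 := by intro h'; rw [if_pos h'] at h2; norm_num at h2
      have hv0 : v ∉ S 0 := by intro h'; rw [if_pos h'] at h4; norm_num at h4
      by_contra hne
      have hd : Disjoint (S 0) (S T) := by
        rw [disjoint_left]
        exact fun z h1 h2 => hdisj z h1 h2
      have hc2 : (S 0 ∪ S T).card = 2 * h := by
        rw [card_union_of_disjoint hd, hcard 0 (Nat.zero_le _), hcard T le_rfl]; ring
      have hss : ({u, v} : Finset V) ⊆ (S 0 ∪ S T)ᶜ := by
        intro z hz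
        rw [mem_insert, mem_singleton] at hz
        rw [mem_compl, mem_union]
        rcases hz with rfl | rfl
        · tauto
        · tauto
      have := card_le_card hss
      rw [card_compl, hc2, card_pair hne] at this
      omega
  · -- up
    intro i hi u v h1 h2 h3 h4
    have hiT : i ≤ T := by omega
    rw [hYle i hiT] at h1 h3
    have hu : u ∈ S i := by by_contra h'; rw [if_neg h'] at h1; norm_num at h1
    have hv : v ∈ S i := by by_contra h'; rw [if_neg h'] at h3; norm_num at h3
    by_cases hi1 : i + 1 ≤ T
    · rw [hYle _ hi1] at h2 h4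
      have hu' : u ∉ S (i + 1) := by intro h'; rw [if_pos h'] at h2; norm_num at h2
      have hv' : v ∉ S (i + 1) := by intro h'; rw [if_pos h'] at h4; norm_num at h4
      have hex3 : ∃ w, w ∉ S i ∧ w ∈ S (i + 1) := by
        by_contra hcon
        push Not at hcon
        have hss : insert u (S (i + 1)) ⊆ S i := by
          intro z hz
          rcases mem_insert.1 hz with rfl | hz
          · exact hu
          · by_contra hz'
            exact hcon z hz' hz
        have := card_le_card hss
        rw [card_insert_of_notMem hu', hcard i hiT, hcard _ hi1] at this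
        omega
      obtain ⟨w, hw, hw'⟩ := hex3
      -- unique critical slope between
      have hlt : m i < m (i + 1) := by
        by_contra hcon
        push Not at hcon
        have : (C.filter (· < m (i + 1))).card ≤ (C.filter (· < m i)).card := by
          apply card_le_card
          intro z hz
          rw [mem_filter] at hz ⊢
          exact ⟨hz.1, hz.2.trans_le hcon⟩
        rw [(hm i hiT).2, (hm _ hi1).2] at this
        omega
      have huw : u ≠ w := fun h' => hw (h' ▸ hu)
      refine lower_step hg hlt (s := slp x y u w) ?_ (hS i hiT).1 (hS _ hi1).1 hu hu' hv hv' hw hw'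
      intro c hc h5 h6
      have e1 := (hpos _ hc i hiT).1 h5
      have e2 := (hpos _ hc (i + 1) hi1).not.1 (not_lt.2 h6.le)
      have a2 := (hS i hiT).1 u hu w hw
      have a3 := (hS _ hi1).1 w hw' u hu'
      have hxw : x u < x w := by
        rcases lt_or_gt_of_ne (fun h => huw (hg.inj h)) with hx | hx
        · exact hx
        · exfalso
          rw [hgt_gt_iff hx] at a2
          rw [hgt_lt_iff hx] at a3
          linarith
      rw [hgt_lt_iff hxw] at a2
      rw [hgt_gt_iff hxw] at a3
      have f1 := (hpos _ (slp_mem huw) i hiT).1 a2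
      have f2 := (hpos _ (slp_mem huw) (i + 1) hi1).not.1 (not_lt.2 a3.le)
      rcases lt_trichotomy c (slp x y u w) with hlt' | heq | hgt'
      · exfalso
        have : (insert c (C.filter (· < c))).card ≤ (C.filter (· < slp x y u w)).card := by
          apply card_le_card
          intro z hz
          rw [mem_insert, mem_filter] at hz
          rw [mem_filter]
          rcases hz with rfl | hz
          · exact ⟨hc, hlt'⟩
          · exact ⟨hz.1, hz.2.trans hlt'⟩
        rw [card_insert_of_notMem (by simp)] at this
        omega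
      · exact heq
      · exfalso
        have : (insert (slp x y u w) (C.filter (· < slp x y u w))).card ≤
            (C.filter (· < c)).card := by
          apply card_le_card
          intro z hz
          rw [mem_insert, mem_filter] at hz
          rw [mem_filter]
          rcases hz with rfl | hz
          · exact ⟨slp_mem huw, hgt'⟩
          · exact ⟨hz.1, hz.2.trans hgt'⟩
        rw [card_insert_of_notMem (by simp)] at this
        omega
    · exfalso
      have hiT' : i = T := by omega
      rw [hiT', hYgt] at h2
      rw [hiT'] at hu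
      have hu0 : u ∈ S 0 := by by_contra h'; rw [if_neg h'] at h2; norm_num at h2
      exact hdisj u hu0 hu

end geometry

end Pool.Agent.Helper46.Dense
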